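import Mathlib
import Pool.Agent.H57R2.PU.Green

/-!
Green function bound for the difference of two oriented walks whose steps use five groups of
coordinates in turn.
-/

set_option autoImplicit false

namespace Pool.Agent.Q220.Bng

open Finset
open Pool.Agent.H57R2.PU (w w_nonneg w_zero w_succ c c_zero c_succ c_pos c_sq c_le_one c_pow)

/-- the `2 m` choices of a step -/
abbrev Al (m : ℕ) : Type := Fin m × Bool

variable {m : ℕ}

/-- unit vector of a choice -/
def dl (b : Al m) : Al m → ℤ := Pi.single b 1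

/-- difference of two multinomial walks with `R` steps -/
noncomputable def q : ℕ → (Al m → ℤ) → ℝ
  | 0, y => if y = 0 then 1 else 0
  | R + 1, y => (∑ b : Al m, ∑ b' : Al m, q R (y + dl b - dl b')) / (2 * m) ^ 2

theorem q_nonneg (R : ℕ) : ∀ y : Al m → ℤ, 0 ≤ q R y := by
  induction R with
  | zero => intro y; unfold q; split_ifs <;> norm_num
  | succ R ih =>
    intro y
    unfold q
    have : 0 ≤ ∑ b : Al m, ∑ b' : Al m, q R (y + dl b - dl b') :=
      sum_nonneg fun b _ => sum_nonneg fun b' _ => ih _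
    positivity

/-- the number of steps of type `true` -/
def hh (y : Al m → ℤ) : ℤ := ∑ j : Fin m, y (j, true)

theorem hh_dl (y : Al m → ℤ) (b b' : Al m) :
    hh (y + dl b - dl b') = hh y + (if b.2 then 1 else 0) - (if b'.2 then 1 else 0) := by
  have h1 : ∀ b : Al m, ∑ j : Fin m, dl b (j, true) = if b.2 then 1 else 0 := by
    rintro ⟨i, t⟩
    cases t with
    | false =>
      simp only [Bool.false_eq_true, if_false]
      refine sum_eq_zero fun j _ => ?_
      simp [dl]
    | true =>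
      simp only [if_true]
      rw [sum_eq_single i]
      · simp [dl]
      · intro j _ hj
        simp [dl, hj]
      · simp
  unfold hh
  simp only [Pi.add_apply, Pi.sub_apply, sum_add_distrib, sum_sub_distrib, h1]

theorem q_le_w (hm : 1 ≤ m) (R : ℕ) : ∀ y : Al m → ℤ, q R y ≤ w R (hh y) := by
  induction R with
  | zero =>
    intro y
    unfold q
    rw [w_zero]
    by_cases hy : y = 0
    · rw [if_pos hy, if_pos (by rw [hy]; simp [hh])]
    · rw [if_neg hy]
      split_ifs <;> norm_num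
  | succ R ih =>
    intro y
    unfold q
    have hm' : (0 : ℝ) < m := by exact_mod_cast hm
    rw [div_le_iff₀ (by positivity), w_succ]
    calc ∑ b : Al m, ∑ b' : Al m, q R (y + dl b - dl b')
        ≤ ∑ b : Al m, ∑ b' : Al m, w R (hh y + (if b.2 then 1 else 0) - (if b'.2 then 1 else 0)) := by
          refine sum_le_sum fun b _ => sum_le_sum fun b' _ => ?_
          rw [← hh_dl]
          exact ih _
      _ = (w R (hh y - 1) + 2 * w R (hh y) + w R (hh y + 1)) / 4 * (2 * m) ^ 2 := by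
          simp only [Fintype.sum_prod_type, Fintype.sum_bool, if_true, Bool.false_eq_true, if_false,
            sum_const, card_univ, Fintype.card_fin, nsmul_eq_mul]
          have e1 : hh y + 1 - 1 = hh y := by ring
          rw [e1]
          simp only [sub_zero, add_zero]
          ring

theorem q_sum_le (hm : 1 ≤ m) (R : ℕ) : ∀ F : Finset (Al m → ℤ), ∑ y ∈ F, q R y ≤ 1 := by
  have hm' : (0 : ℝ) < m := by exact_mod_cast hm
  induction R with
  | zero =>
    intro F
    unfold q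
    rw [sum_ite_eq' F 0 (fun _ => (1 : ℝ))]
    split_ifs <;> norm_num
  | succ R ih =>
    intro F
    have h1 : ∑ y ∈ F, q (R + 1) y =
        (∑ b : Al m, ∑ b' : Al m, ∑ y ∈ F, q R (y + dl b - dl b')) / (2 * m) ^ 2 := by
      simp only [q]
      rw [← sum_div, sum_comm]
      congr 1
      refine sum_congr rfl fun b _ => ?_
      rw [sum_comm]
    rw [h1, div_le_one (by positivity)]
    have h2 : ∀ b b' : Al m, ∑ y ∈ F, q R (y + dl b - dl b') ≤ 1 := by
      intro b b'
      have : ∑ y ∈ F, q R (y + dl b - dl b') = ∑ y ∈ F.image (fun y => y + dl b - dl b'), q R y := by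
        rw [sum_image]
        intro y _ y' _ h
        have h' : y + dl b - dl b' = y' + dl b - dl b' := h
        have h3 := congrArg (fun z => z + dl b' - dl b) h'
        simpa [sub_add_cancel, add_sub_cancel_right] using h3
      rw [this]
      exact ih _
    calc ∑ b : Al m, ∑ b' : Al m, ∑ y ∈ F, q R (y + dl b - dl b')
        ≤ ∑ b : Al m, ∑ b' : Al m, (1 : ℝ) := sum_le_sum fun b _ => sum_le_sum fun b' _ => h2 b b'
      _ = (2 * m) ^ 2 := by
          simp [Fintype.card_prod]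
          ring

theorem q_le_inv (hm : 1 ≤ m) (R : ℕ) (y : Al m → ℤ) : q (R + 1) y ≤ 1 / (2 * m) := by
  have hm' : (0 : ℝ) < m := by exact_mod_cast hm
  unfold q
  rw [div_le_iff₀ (by positivity)]
  have h2 : ∀ b' : Al m, ∑ b : Al m, q R (y + dl b - dl b') ≤ 1 := by
    intro b'
    have : ∑ b : Al m, q R (y + dl b - dl b') =
        ∑ z ∈ (univ : Finset (Al m)).image (fun b => y + dl b - dl b'), q R z := by
      rw [sum_image]
      intro b _ b₁ _ h
      have h' : y + dl b - dl b' = y + dl b₁ - dl b' := h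
      have h3 : dl b = dl b₁ := by
        have := congrArg (fun z => z + dl b' - y) h'
        simpa [sub_add_cancel, add_sub_cancel_left] using this
      have h4 := congrFun h3 b
      by_contra hne
      simp [dl, hne] at h4
    rw [this]
    exact q_sum_le hm R _
  rw [sum_comm]
  calc ∑ b' : Al m, ∑ b : Al m, q R (y + dl b - dl b') ≤ ∑ b' : Al m, (1 : ℝ) :=
        sum_le_sum fun b' _ => h2 b'
    _ = 1 / (2 * m) * (2 * m) ^ 2 := by
        simp [Fintype.card_prod]
        field_simp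

theorem c_anti (R : ℕ) : c (R + 1) ≤ c R := by
  rw [c_succ]
  have h1 := c_pos R
  have h2 : ((2 * (R : ℝ) + 1) / (2 * R + 2)) ≤ 1 := by
    rw [div_le_one (by positivity)]
    linarith
  nlinarith

/-- number of visits to the group `g` in `k` steps starting with the group `φ` -/
def cn (g : Fin 5) : Fin 5 → ℕ → ℕ
  | _, 0 => 0
  | φ, k + 1 => cn g (φ + 1) k + if g = φ then 1 else 0

theorem cn_five (g : Fin 5) (φ : Fin 5) (k : ℕ) : cn g φ (k + 5) = cn g φ k + 1 := by
  have h : ∀ φ : Fin 5, cn g φ (k + 5) = cn g (φ + 1 + 1 + 1 + 1 + 1) k +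
      (if g = φ + 1 + 1 + 1 + 1 then 1 else 0) + (if g = φ + 1 + 1 + 1 then 1 else 0) +
      (if g = φ + 1 + 1 then 1 else 0) + (if g = φ + 1 then 1 else 0) + (if g = φ then 1 else 0) := by
    intro φ
    rfl
  rw [h]
  have h5 : φ + 1 + 1 + 1 + 1 + 1 = φ := by
    fin_cases φ <;> rfl
  rw [h5]
  have : (if g = φ + 1 + 1 + 1 + 1 then 1 else 0) + (if g = φ + 1 + 1 + 1 then 1 else 0) +
      (if g = φ + 1 + 1 then 1 else 0) + (if g = φ + 1 then 1 else 0) + (if g = φ then 1 else 0) = 1 := by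
    fin_cases φ <;> fin_cases g <;> rfl
  omega

theorem cn_add (g : Fin 5) (φ : Fin 5) (R t : ℕ) : cn g φ (5 * R + t) = R + cn g φ t := by
  induction R with
  | zero => simp
  | succ R ih =>
    have : 5 * (R + 1) + t = (5 * R + t) + 5 := by ring
    rw [this, cn_five, ih]
    ring

theorem cn_le_one (g φ : Fin 5) (t : ℕ) (ht : t < 5) : cn g φ t ≤ 1 := by
  interval_cases t <;> fin_cases φ <;> fin_cases g <;> decide

theorem cn_sum (φ : Fin 5) (t : ℕ) (ht : t < 5) : ∑ g, cn g φ t = t := by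
  interval_cases t <;> fin_cases φ <;> decide

variable {d : ℕ}

/-- coordinates of a vertex in the group `g` -/
def pr (co : Fin 5 × Al m → Fin d) (z : Fin d → ℤ) (g : Fin 5) : Al m → ℤ := fun b => z (co (g, b))

/-- step -/
def ee (co : Fin 5 × Al m → Fin d) (φ : Fin 5) (b : Al m) : Fin d → ℤ := Pi.single (co (φ, b)) 1

/-- probability that the difference walk started in `z` with group `φ` is at `0` in the groups -/
noncomputable def ff (co : Fin 5 × Al m → Fin d) (k : ℕ) (φ : Fin 5) (z : Fin d → ℤ) : ℝ :=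
  ∏ g, q (cn g φ k) (pr co z g)

theorem ff_nonneg (co : Fin 5 × Al m → Fin d) (k : ℕ) (φ : Fin 5) (z : Fin d → ℤ) :
    0 ≤ ff co k φ z := prod_nonneg fun _ _ => q_nonneg _ _

theorem pr_same {co : Fin 5 × Al m → Fin d} (hco : Function.Injective co) (z : Fin d → ℤ)
    (φ : Fin 5) (b b' : Al m) :
    pr co (z + ee co φ b - ee co φ b') φ = pr co z φ + dl b - dl b' := by
  ext a
  simp only [pr, ee, dl, Pi.add_apply, Pi.sub_apply, Pi.single_apply]
  have h1 : ∀ b : Al m, (co (φ, a) = co (φ, b)) ↔ a = b := by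
    intro b
    constructor
    · intro h
      exact (Prod.ext_iff.mp (hco h)).2
    · rintro rfl; rfl
  simp only [h1]

theorem pr_other {co : Fin 5 × Al m → Fin d} (hco : Function.Injective co) (z : Fin d → ℤ)
    {φ g : Fin 5} (hg : g ≠ φ) (b b' : Al m) :
    pr co (z + ee co φ b - ee co φ b') g = pr co z g := by
  ext a
  simp only [pr, ee, Pi.add_apply, Pi.sub_apply, Pi.single_apply]
  have h1 : ∀ b : Al m, ¬ (co (g, a) = co (φ, b)) := by
    intro b h
    exact hg (Prod.ext_iff.mp (hco h)).1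
  simp [h1]

theorem ff_step {co : Fin 5 × Al m → Fin d} (hco : Function.Injective co) (k : ℕ) (φ : Fin 5)
    (z : Fin d → ℤ) :
    (∑ b : Al m, ∑ b' : Al m, ff co k (φ + 1) (z + ee co φ b - ee co φ b')) / (2 * m) ^ 2 =
      ff co (k + 1) φ z := by
  have h1 : ∀ b b' : Al m, ff co k (φ + 1) (z + ee co φ b - ee co φ b') =
      q (cn φ (φ + 1) k) (pr co z φ + dl b - dl b') *
        ∏ g ∈ univ.erase φ, q (cn g φ (k + 1)) (pr co z g) := by
    intro b b'
    unfold ff
    rw [← mul_prod_erase univ _ (mem_univ φ), pr_same hco]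
    congr 1
    refine prod_congr rfl fun g hg => ?_
    have hg' : g ≠ φ := ne_of_mem_erase hg
    rw [pr_other hco z hg']
    congr 1
    simp [cn, hg']
  simp_rw [h1, ← sum_mul]
  unfold ff
  rw [← mul_prod_erase univ (fun g => q (cn g φ (k + 1)) (pr co z g)) (mem_univ φ)]
  have h2 : cn φ φ (k + 1) = cn φ (φ + 1) k + 1 := by simp [cn]
  simp only [h2, q]
  ring

/-- truncated Green function -/
noncomputable def gg (co : Fin 5 × Al m → Fin d) (n : ℕ) (φ : Fin 5) (z : Fin d → ℤ) : ℝ :=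
  ∑ k ∈ range n, ff co k φ z

theorem gg_nonneg (co : Fin 5 × Al m → Fin d) (n : ℕ) (φ : Fin 5) (z : Fin d → ℤ) :
    0 ≤ gg co n φ z := sum_nonneg fun _ _ => ff_nonneg _ _ _ _

theorem gg_step {co : Fin 5 × Al m → Fin d} (hco : Function.Injective co) (n : ℕ) (φ : Fin 5)
    (z : Fin d → ℤ) :
    (∑ b : Al m, ∑ b' : Al m, gg co n (φ + 1) (z + ee co φ b - ee co φ b')) / (2 * m) ^ 2 =
      gg co (n + 1) φ z - ff co 0 φ z := by
  unfold gg
  rw [sum_range_succ', add_sub_cancel_right]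
  rw [← sum_congr rfl fun k _ => ff_step hco k φ z, ← sum_div]
  congr 1
  rw [sum_congr rfl fun b _ => sum_comm]
  exact sum_comm

theorem ff_zero_zero (co : Fin 5 × Al m → Fin d) (φ : Fin 5) : ff co 0 φ 0 = 1 := by
  unfold ff
  refine prod_eq_one fun g _ => ?_
  have : pr co 0 g = 0 := rfl
  rw [this]
  simp [cn, q]

theorem ff_small (hm : 1 ≤ m) (co : Fin 5 × Al m → Fin d) (φ : Fin 5) (t : ℕ) (ht : t < 5) :
    ff co t φ 0 ≤ (1 / (2 * m)) ^ t := by
  have h1 : ∀ g, q (cn g φ t) (pr co 0 g) ≤ (1 / (2 * m : ℝ)) ^ (cn g φ t) := by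
    intro g
    have := cn_le_one g φ t ht
    interval_cases h : cn g φ t
    · have : pr co 0 g = 0 := rfl
      rw [this]
      simp [q]
    · have := q_le_inv hm 0 (pr co 0 g)
      simpa using this
  calc ff co t φ 0 ≤ ∏ g, (1 / (2 * m : ℝ)) ^ (cn g φ t) :=
        prod_le_prod (fun g _ => q_nonneg _ _) fun g _ => h1 g
    _ = (1 / (2 * m)) ^ t := by
        rw [prod_pow_eq_pow_sum, cn_sum φ t ht]

theorem ff_large (hm : 1 ≤ m) (co : Fin 5 × Al m → Fin d) (φ : Fin 5) (R t : ℕ) (hR : 1 ≤ R)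
    (ht : t < 5) : ff co (5 * R + t) φ 0 ≤ (1 / (2 * m)) ^ 2 * c R ^ 3 := by
  have hm' : (0 : ℝ) < m := by exact_mod_cast hm
  have h0 : ∀ g, pr co 0 g = 0 := fun g => rfl
  have h1 : ∀ g, q (cn g φ (5 * R + t)) (pr co 0 g) ≤ 1 / (2 * m) := by
    intro g
    rw [cn_add]
    obtain ⟨j, hj⟩ : ∃ j, R + cn g φ t = j + 1 := ⟨R + cn g φ t - 1, by omega⟩
    rw [hj]
    exact q_le_inv hm _ _
  have h2 : ∀ g, q (cn g φ (5 * R + t)) (pr co 0 g) ≤ c R := by
    intro g
    rw [cn_add]
    have h3 := q_le_w hm (R + cn g φ t) (pr co 0 g)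
    have h4 : hh (pr co 0 g) = 0 := by rw [h0]; simp [hh]
    rw [h4] at h3
    refine h3.trans ?_
    have h5 := cn_le_one g φ t ht
    interval_cases cn g φ t
    · exact le_refl _
    · exact c_anti R
  have hc := c_pos R
  unfold ff
  rw [Fin.prod_univ_five]
  have hn := fun g => q_nonneg (cn g φ (5 * R + t)) (pr co 0 g)
  calc _ ≤ (1 / (2 * m : ℝ)) * (1 / (2 * m)) * c R * c R * c R := by
        refine mul_le_mul (mul_le_mul (mul_le_mul (mul_le_mul (h1 0) (h1 1) (hn 1) ?_) (h2 2) (hn 2) ?_)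
          (h2 3) (hn 3) ?_) (h2 4) (hn 4) ?_ <;> positivity
    _ = _ := by ring

theorem c_sum (N : ℕ) : ∑ R ∈ range N, c (R + 1) ^ 3 ≤ 1 / 2 := by
  have h2 : ∀ N : ℕ, ∑ R ∈ range N, c (R + 1) ^ 3 ≤ c 1 - c (N + 1) := by
    intro N
    induction N with
    | zero => simp
    | succ N ih =>
      rw [sum_range_succ]
      have := c_pow (N + 1) 3 (by omega) le_rfl
      linarith
  have hc1 : c 1 = 1 / 2 := by
    rw [c_succ, c_zero]
    norm_num
  have := h2 N
  have h3 := c_pos (N + 1)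
  linarith

theorem gg_zero_le (hm : 1 ≤ m) (co : Fin 5 × Al m → Fin d) (n : ℕ) (φ : Fin 5) :
    gg co n φ 0 ≤ ∑ t ∈ range 5, (1 / (2 * m : ℝ)) ^ t + 5 / 2 * (1 / (2 * m)) ^ 2 := by
  have hm' : (0 : ℝ) < m := by exact_mod_cast hm
  have h1 : gg co n φ 0 ≤ gg co (5 * (n + 1)) φ 0 := by
    refine sum_le_sum_of_subset_of_nonneg ?_ fun _ _ _ => ff_nonneg _ _ _ _
    intro k hk
    rw [mem_range] at hk ⊢
    omega
  have h2 : ∀ N : ℕ, gg co (5 * (N + 1)) φ 0 = gg co 5 φ 0 +
      ∑ R ∈ range N, ∑ t ∈ range 5, ff co (5 * (R + 1) + t) φ 0 := by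
    intro N
    induction N with
    | zero => simp
    | succ N ih =>
      rw [sum_range_succ, ← add_assoc, ← ih]
      unfold gg
      rw [show 5 * (N + 1 + 1) = 5 * (N + 1) + 5 by ring, sum_range_add]
  have h3 : gg co 5 φ 0 ≤ ∑ t ∈ range 5, (1 / (2 * m : ℝ)) ^ t :=
    sum_le_sum fun t ht => ff_small hm co φ t (mem_range.mp ht)
  have h4 : ∑ R ∈ range n, ∑ t ∈ range 5, ff co (5 * (R + 1) + t) φ 0 ≤
      5 / 2 * (1 / (2 * m : ℝ)) ^ 2 := by
    calc ∑ R ∈ range n, ∑ t ∈ range 5, ff co (5 * (R + 1) + t) φ 0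
        ≤ ∑ R ∈ range n, ∑ t ∈ range 5, (1 / (2 * m : ℝ)) ^ 2 * c (R + 1) ^ 3 :=
          sum_le_sum fun R _ => sum_le_sum fun t ht =>
            ff_large hm co φ (R + 1) t (by omega) (mem_range.mp ht)
      _ = 5 * (1 / (2 * m : ℝ)) ^ 2 * ∑ R ∈ range n, c (R + 1) ^ 3 := by
          rw [mul_sum]
          refine sum_congr rfl fun R _ => ?_
          rw [sum_const, card_range, nsmul_eq_mul]
          push_cast
          ring
      _ ≤ 5 * (1 / (2 * m : ℝ)) ^ 2 * (1 / 2) :=
          mul_le_mul_of_nonneg_left (c_sum n) (by positivity)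
      _ = _ := by ring
  rw [h2 n] at h1
  linarith

/-- weighted pairs of walks -/
noncomputable def uu (co : Fin 5 × Al m → Fin d) (A : ℝ) : ℕ → Fin 5 → (Fin d → ℤ) → ℝ
  | 0, _, _ => 1
  | n + 1, φ, z => (if z = 0 then A else 1) *
      ((∑ b : Al m, ∑ b' : Al m, uu co A n (φ + 1) (z + ee co φ b - ee co φ b')) / (2 * m) ^ 2)

theorem uu_nonneg (co : Fin 5 × Al m → Fin d) {A : ℝ} (hA : 1 ≤ A) (n : ℕ) :
    ∀ (φ : Fin 5) (z : Fin d → ℤ), 0 ≤ uu co A n φ z := by
  induction n with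
  | zero => intro φ z; simp [uu]
  | succ n ih =>
    intro φ z
    unfold uu
    have h1 : (0 : ℝ) ≤ if z = 0 then A else 1 := by split_ifs <;> linarith
    have h2 : 0 ≤ ∑ b : Al m, ∑ b' : Al m, uu co A n (φ + 1) (z + ee co φ b - ee co φ b') :=
      sum_nonneg fun _ _ => sum_nonneg fun _ _ => ih _ _
    positivity

theorem uu_le (hm : 1 ≤ m) {co : Fin 5 × Al m → Fin d} (hco : Function.Injective co) {A G : ℝ}
    (hA : 1 ≤ A) (hG : ∀ n φ, gg co n φ 0 ≤ G) (hAG : (A - 1) * (G - 1) < 1) (n : ℕ) :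
    ∀ (φ : Fin 5) (z : Fin d → ℤ),
      uu co A n φ z ≤ 1 + (A - 1) / (1 - (A - 1) * (G - 1)) * gg co n φ z := by
  have hm' : (0 : ℝ) < m := by exact_mod_cast hm
  set B : ℝ := (A - 1) / (1 - (A - 1) * (G - 1)) with hB
  have hden : 0 < 1 - (A - 1) * (G - 1) := by linarith
  have hB0 : 0 ≤ B := div_nonneg (by linarith) hden.le
  have hBe : B * (1 - (A - 1) * (G - 1)) = A - 1 := by
    rw [hB]; field_simp
  induction n with
  | zero =>
    intro φ z
    have := gg_nonneg co 0 φ z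
    simp only [uu]
    nlinarith
  | succ n ih =>
    intro φ z
    have h1 : (∑ b : Al m, ∑ b' : Al m, uu co A n (φ + 1) (z + ee co φ b - ee co φ b')) / (2 * m) ^ 2
        ≤ 1 + B * (gg co (n + 1) φ z - ff co 0 φ z) := by
      rw [← gg_step hco, div_le_iff₀ (by positivity)]
      calc ∑ b : Al m, ∑ b' : Al m, uu co A n (φ + 1) (z + ee co φ b - ee co φ b')
          ≤ ∑ b : Al m, ∑ b' : Al m, (1 + B * gg co n (φ + 1) (z + ee co φ b - ee co φ b')) :=
            sum_le_sum fun b _ => sum_le_sum fun b' _ => ih _ _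
        _ = (2 * m) ^ 2 + B * ∑ b : Al m, ∑ b' : Al m,
              gg co n (φ + 1) (z + ee co φ b - ee co φ b') := by
            simp only [sum_add_distrib, mul_sum, sum_const, card_univ, Fintype.card_prod,
              Fintype.card_fin, Fintype.card_bool, nsmul_eq_mul]
            push_cast
            ring
        _ = _ := by
            field_simp
    unfold uu
    by_cases hz : z = 0
    · rw [if_pos hz]
      subst hz
      rw [ff_zero_zero] at h1
      have h2 := hG (n + 1) φ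
      have h3 : A * (1 + B * (gg co (n + 1) φ 0 - 1)) ≤ 1 + B * gg co (n + 1) φ 0 := by
        have h4 : (A - 1) * (gg co (n + 1) φ 0 - 1) ≤ (A - 1) * (G - 1) :=
          mul_le_mul_of_nonneg_left (by linarith) (by linarith)
        have h5 : B * ((A - 1) * (gg co (n + 1) φ 0 - 1)) ≤ B * ((A - 1) * (G - 1)) :=
          mul_le_mul_of_nonneg_left h4 hB0
        nlinarith
      exact (mul_le_mul_of_nonneg_left h1 (by linarith)).trans h3
    · rw [if_neg hz, one_mul]
      have h2 := ff_nonneg co 0 φ z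
      have h3 : B * (gg co (n + 1) φ z - ff co 0 φ z) ≤ B * gg co (n + 1) φ z :=
        mul_le_mul_of_nonneg_left (by linarith) hB0
      linarith

/-- the second moment stays bounded -/
theorem uu_bdd (hm : 1 ≤ m) {co : Fin 5 × Al m → Fin d} (hco : Function.Injective co) {A : ℝ}
    (hA : 1 ≤ A) (hAG : (A - 1) * ((∑ t ∈ range 5, (1 / (2 * m : ℝ)) ^ t +
      5 / 2 * (1 / (2 * m)) ^ 2) - 1) < 1) :
    ∃ C : ℝ, 1 ≤ C ∧ ∀ n φ, uu co A n φ 0 ≤ C := by
  set G : ℝ := ∑ t ∈ range 5, (1 / (2 * m : ℝ)) ^ t + 5 / 2 * (1 / (2 * m)) ^ 2 with hGdef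
  have hG : ∀ n φ, gg co n φ 0 ≤ G := fun n φ => gg_zero_le hm co n φ
  have hG0 : 0 ≤ G := (gg_nonneg co 0 0 0).trans (hG 0 0)
  have hB : 0 ≤ (A - 1) / (1 - (A - 1) * (G - 1)) := div_nonneg (by linarith) (by linarith)
  refine ⟨1 + (A - 1) / (1 - (A - 1) * (G - 1)) * G, ?_, ?_⟩
  · have := mul_nonneg hB hG0
    linarith
  · intro n φ
    refine (uu_le hm hco hA hG hAG n φ 0).trans ?_
    have := mul_le_mul_of_nonneg_left (hG n φ) hB
    linarith

end Pool.Agent.Q220.Bng
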