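import Pool.Agent.Q220.Bng.Main

/-!
The bidirectional `k`-neighbour graph on `ℤ^d`: no percolation for `k (k - 1) < 2 d - 1`, and the
order of the critical number of choices.
-/

set_option autoImplicit false

namespace Pool.Agent.Q220.Bng

open MeasureTheory ProbabilityTheory Filter
open scoped ENNReal Topology

variable {d k : ℕ}

/-- the opposite direction -/
def rev (a : Dir d) : Dir d := (a.1, !a.2)

theorem vec_rev (a : Dir d) : vec (rev a) = - vec a := by
  rcases a with ⟨i, t⟩
  unfold vec rev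
  cases t <;> simp [← Pi.single_neg]

theorem vec_inj {a b : Dir d} (h : vec a = vec b) : a = b := by
  rcases a with ⟨i, t⟩
  rcases b with ⟨j, s⟩
  have h1 : i = j := by
    by_contra hij
    have := congrFun h i
    unfold vec at this
    simp only [Pi.single_eq_same] at this
    rw [Pi.single_eq_of_ne hij] at this
    cases t <;> simp at this
  subst h1
  have := congrFun h i
  unfold vec at this
  simp only [Pi.single_eq_same] at this
  cases t <;> cases s <;> simp_all

/-- position of the walk with the steps `a` at time `j` -/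
def pos {n : ℕ} (a : Fin n → Dir d) (j : ℕ) : Vx d := ∑ i : Fin n, if (i : ℕ) < j then vec (a i) else 0

theorem pos_succ {n : ℕ} (a : Fin n → Dir d) (j : Fin n) :
    pos a (j + 1) = pos a j + vec (a j) := by
  unfold pos
  have h : ∀ i : Fin n, (if (i : ℕ) < (j : ℕ) + 1 then vec (a i) else 0) =
      (if (i : ℕ) < (j : ℕ) then vec (a i) else 0) + if i = j then vec (a i) else 0 := by
    intro i
    by_cases h1 : i = j
    · subst h1; simp
    · have h2 : (i : ℕ) ≠ j := fun h => h1 (Fin.ext h)
      rw [if_neg h1, add_zero]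
      by_cases h3 : (i : ℕ) < j
      · rw [if_pos h3, if_pos (by omega)]
      · rw [if_neg h3, if_neg (by omega)]
  rw [Finset.sum_congr rfl fun i _ => h i, Finset.sum_add_distrib, Finset.sum_ite_eq']
  simp

/-- self-avoiding -/
def SA {n : ℕ} (a : Fin n → Dir d) : Prop := ∀ i j : ℕ, i ≤ n → j ≤ n → pos a i = pos a j → i = j

/-- the interior vertices choose the edges of the walk -/
def EE {n : ℕ} (a : Fin n → Dir d) : Set (Vx d → Finset (Dir d)) :=
  {ω | ∀ (j : ℕ) (h : j + 1 < n), rev (a ⟨j, by omega⟩) ∈ ω (pos a (j + 1)) ∧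
    a ⟨j + 1, h⟩ ∈ ω (pos a (j + 1))}

theorem EE_prob (hk : k ≤ 2 * d) {Q : ℝ≥0∞}
    (hQ : ∀ a b : Dir d, a ≠ b → law d k hk {S | a ∈ S ∧ b ∈ S} ≤ Q) {N : ℕ}
    (a : Fin (N + 1) → Dir d) (ha : SA a) : PP d k hk (EE a) ≤ Q ^ N := by
  classical
  set s : Finset (Vx d) := (Finset.range N).image fun j => pos a (j + 1) with hs
  set t : Vx d → Set (Finset (Dir d)) := fun v => {S | ∀ (j : ℕ) (h : j + 1 < N + 1),
    pos a (j + 1) = v → rev (a ⟨j, by omega⟩) ∈ S ∧ a ⟨j + 1, h⟩ ∈ S} with ht
  have hsub : EE a ⊆ Set.pi s t := by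
    intro ω hω v _ j h hv
    have := hω j h
    rw [hv] at this
    exact this
  refine (measure_mono hsub).trans ?_
  unfold PP
  rw [Measure.infinitePi_pi _ (fun _ _ => MeasurableSet.of_discrete)]
  rw [hs, Finset.prod_image (by
    intro i hi j hj hij
    have hi' := Finset.mem_range.1 hi
    have hj' := Finset.mem_range.1 hj
    have := ha (i + 1) (j + 1) (by omega) (by omega) hij
    omega)]
  calc ∏ j ∈ Finset.range N, law d k hk (t (pos a (j + 1)))
      ≤ ∏ _j ∈ Finset.range N, Q := by
        refine Finset.prod_le_prod' fun j hj => ?_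
        have hj' := Finset.mem_range.1 hj
        have hne : rev (a ⟨j, by omega⟩) ≠ a ⟨j + 1, by omega⟩ := by
          intro h
          have h1 := pos_succ a ⟨j, by omega⟩
          have h2 := pos_succ a ⟨j + 1, by omega⟩
          simp only at h1 h2
          rw [← h, vec_rev, h1] at h2
          have h3 : pos a (j + 1 + 1) = pos a j := by rw [h2]; abel
          have := ha (j + 1 + 1) j (by omega) (by omega) h3
          omega
        refine (measure_mono ?_).trans (hQ _ _ hne)
        intro S hS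
        exact hS j (by omega) rfl
    _ = Q ^ N := by rw [Finset.prod_const, Finset.card_range]

/-! ### long paths in infinite clusters -/

theorem adj_iff (ω : Vx d → Finset (Dir d)) {x y : Vx d} (h : (bng ω).Adj x y) :
    ∃ a : Dir d, a ∈ ω x ∧ rev a ∈ ω y ∧ y = x + vec a := by
  obtain ⟨⟨a, ha, h1⟩, ⟨b, hb, h2⟩⟩ := h
  refine ⟨a, ha, ?_, h1⟩
  have : vec b = vec (rev a) := by
    rw [vec_rev, eq_neg_iff_add_eq_zero]
    have h3 : x + (vec b + vec a) = x := by
      conv_rhs => rw [h2, h1]
      abel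
    exact left_eq_add.1 h3.symm |>.symm ▸ rfl
  rw [← vec_inj this]
  exact hb

theorem walk_le (ω : Vx d → Finset (Dir d)) {x y : Vx d} (p : (bng ω).Walk x y) (i : Fin d) :
    |y i - x i| ≤ (p.length : ℤ) := by
  induction p with
  | nil => simp
  | @cons u v w h p ih =>
    obtain ⟨a, -, -, h1⟩ := adj_iff ω h
    have h2 : |v i - u i| ≤ 1 := by
      rw [h1]
      unfold vec
      by_cases hi : i = a.1
      · subst hi
        simp only [Pi.add_apply, Pi.single_eq_same, add_sub_cancel_left]
        split_ifs <;> simp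
      · simp only [Pi.add_apply, Pi.single_eq_of_ne hi]
        simp
    rw [SimpleGraph.Walk.length_cons]
    push_cast
    calc |w i - u i| = |(w i - v i) + (v i - u i)| := by congr 1; ring
      _ ≤ |w i - v i| + |v i - u i| := abs_add_le _ _
      _ ≤ _ := by linarith

theorem long_path (ω : Vx d → Finset (Dir d))
    (h : ((bng ω).connectedComponentMk 0).supp.Infinite) (n : ℕ) :
    ∃ (y : Vx d) (p : (bng ω).Walk 0 y), p.IsPath ∧ p.length = n := by
  by_contra hcon
  push Not at hcon
  apply h
  refine (Set.finite_Icc (fun _ : Fin d => -(n : ℤ)) (fun _ => (n : ℤ))).subset ?_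
  intro y hy
  rw [SimpleGraph.ConnectedComponent.mem_supp_iff, SimpleGraph.ConnectedComponent.eq] at hy
  obtain ⟨p, hp⟩ := hy.symm.exists_isPath
  have hl : p.length < n := by
    by_contra hl
    push Not at hl
    exact hcon _ (p.take n) (hp.take n) (by rw [SimpleGraph.Walk.take_length]; omega)
  have hb : ∀ i, |y i| ≤ (n : ℤ) := by
    intro i
    have := walk_le ω p i
    simp only [Pi.zero_apply, sub_zero] at this
    omega
  exact ⟨fun i => (abs_le.1 (hb i)).1, fun i => (abs_le.1 (hb i)).2⟩

theorem cover (n : ℕ) : {ω : Vx d → Finset (Dir d) | ((bng ω).connectedComponentMk 0).supp.Infinite} ⊆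
    ⋃ a : {a : Fin n → Dir d // SA a}, EE a.1 := by
  intro ω hω
  obtain ⟨y, p, hp, hl⟩ := long_path ω hω n
  have hadj : ∀ j : Fin n, ∃ a : Dir d, a ∈ ω (p.getVert j) ∧ rev a ∈ ω (p.getVert (j + 1)) ∧
      p.getVert (j + 1) = p.getVert j + vec a := fun j =>
    adj_iff ω (p.adj_getVert_succ (by rw [hl]; exact j.2))
  choose a h1 h2 h3 using hadj
  have hpos : ∀ j : ℕ, j ≤ n → pos a j = p.getVert j := by
    intro j
    induction j with
    | zero => intro _; simp [pos]
    | succ j ih =>
      intro hj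
      have := pos_succ a ⟨j, by omega⟩
      simp only at this
      rw [this, ih (by omega), ← h3 ⟨j, by omega⟩]
  rw [Set.mem_iUnion]
  refine ⟨⟨a, ?_⟩, ?_⟩
  · intro i j hi hj hij
    rw [hpos i hi, hpos j hj] at hij
    exact hp.getVert_injOn (by rw [Set.mem_ofPred_eq]; omega) (by rw [Set.mem_ofPred_eq]; omega) hij
  · intro j h
    rw [hpos (j + 1) (by omega)]
    exact ⟨h2 ⟨j, by omega⟩, h1 ⟨j + 1, h⟩⟩

theorem theta_le (hk : k ≤ 2 * d) {Q : ℝ≥0∞}
    (hQ : ∀ a b : Dir d, a ≠ b → law d k hk {S | a ∈ S ∧ b ∈ S} ≤ Q) (N : ℕ) :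
    theta d k hk ≤ ((2 * d : ℕ) : ℝ≥0∞) ^ (N + 1) * Q ^ N := by
  classical
  unfold theta
  refine (measure_mono (cover (N + 1))).trans ((measure_iUnion_le _).trans ?_)
  rw [tsum_fintype]
  calc ∑ a : {a : Fin (N + 1) → Dir d // SA a}, PP d k hk (EE a.1)
      ≤ ∑ _a : {a : Fin (N + 1) → Dir d // SA a}, Q ^ N :=
        Finset.sum_le_sum fun a _ => EE_prob hk hQ a.1 a.2
    _ ≤ _ := by
        rw [Finset.sum_const, nsmul_eq_mul]
        gcongr
        have h1 : (Finset.univ : Finset {a : Fin (N + 1) → Dir d // SA a}).card ≤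
            Fintype.card (Fin (N + 1) → Dir d) := by
          rw [Finset.card_univ]
          exact Fintype.card_subtype_le _
        have h2 : Fintype.card (Fin (N + 1) → Dir d) = (2 * d) ^ (N + 1) := by
          rw [Fintype.card_fun, Fintype.card_fin]
          simp only [Fintype.card_prod, Fintype.card_fin, Fintype.card_bool]
          ring_nf
        rw [h2] at h1
        exact_mod_cast h1

theorem theta_zero (hk : k ≤ 2 * d) (h : k * (k - 1) < 2 * d - 1) : theta d k hk = 0 := by
  -- a bound for the probability of two given directions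
  have hd : 1 ≤ d := by omega
  obtain ⟨Q, hQ, hQ1⟩ : ∃ Q : ℝ≥0∞, (∀ a b : Dir d, a ≠ b →
      law d k hk {S | a ∈ S ∧ b ∈ S} ≤ Q) ∧ ((2 * d : ℕ) : ℝ≥0∞) * Q < 1 := by
    rcases Nat.lt_or_ge k 2 with hk2 | hk2
    · refine ⟨0, fun a b hab => ?_, by simp⟩
      have h1 : law d k hk {S | a ∈ S ∧ b ∈ S} = 0 := by
        unfold law
        rw [PMF.toMeasure_uniformOfFinset_apply _ _ MeasurableSet.of_discrete]
        refine ENNReal.div_eq_zero_iff.2 (Or.inl (Nat.cast_eq_zero.2 (Finset.card_eq_zero.2
          (Finset.eq_empty_of_forall_notMem ?_))))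
        intro S hS'
        simp only [Finset.mem_filter, Finset.mem_powersetCard, Set.mem_ofPred_eq] at hS'
        obtain ⟨⟨-, hc⟩, hab'⟩ := hS'
        have h2 : ({a, b} : Finset (Dir d)) ⊆ S := by
          intro x hx
          rcases Finset.mem_insert.1 hx with rfl | hx
          · exact hab'.1
          · rw [Finset.mem_singleton.1 hx]; exact hab'.2
        have h3 := Finset.card_le_card h2
        rw [Finset.card_pair hab] at h3
        omega
      rw [h1]
    · refine ⟨ENNReal.ofReal (qq d k), fun a b hab => ?_, ?_⟩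
      · rw [← law_pair hk hk2 hab]
        exact (ofReal_measureReal (measure_ne_top _ _)).ge
      · have h1 : ((2 * d : ℕ) : ℝ≥0∞) = ENNReal.ofReal (2 * d) := by
          rw [← ENNReal.ofReal_natCast]; push_cast; rfl
        have hd' : (1 : ℝ) ≤ d := by exact_mod_cast hd
        rw [h1, ← ENNReal.ofReal_mul (by positivity), ← ENNReal.ofReal_one]
        rw [ENNReal.ofReal_lt_ofReal_iff (by norm_num)]
        unfold qq
        have h2 : (k : ℝ) * (k - 1) < 2 * d - 1 := by
          obtain ⟨K, rfl⟩ : ∃ K, k = K + 1 := ⟨k - 1, by omega⟩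
          have h3 : (K + 1) * K + 1 < 2 * d := by
            have : (K + 1) * (K + 1 - 1) < 2 * d - 1 := h
            rw [Nat.add_sub_cancel] at this
            omega
          have h4 : (((K + 1) * K + 1 : ℕ) : ℝ) < ((2 * d : ℕ) : ℝ) := by exact_mod_cast h3
          push_cast at h4 ⊢
          linarith
        have h3 : (0 : ℝ) < 2 * d - 1 := by linarith
        rw [← mul_div_assoc, div_lt_one (by positivity)]
        nlinarith
  -- the bound tends to zero
  have hlim : Tendsto (fun N : ℕ => ((2 * d : ℕ) : ℝ≥0∞) ^ (N + 1) * Q ^ N) atTop (𝓝 0) := by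
    have e : (fun N : ℕ => ((2 * d : ℕ) : ℝ≥0∞) ^ (N + 1) * Q ^ N) =
        fun N : ℕ => ((2 * d : ℕ) : ℝ≥0∞) * (((2 * d : ℕ) : ℝ≥0∞) * Q) ^ N := by
      funext N
      rw [mul_pow, pow_succ]
      ring
    rw [e]
    have := ENNReal.Tendsto.const_mul (a := ((2 * d : ℕ) : ℝ≥0∞))
      (ENNReal.tendsto_pow_atTop_nhds_zero_of_lt_one hQ1) (Or.inr (ENNReal.natCast_ne_top _))
    simpa using this
  exact le_antisymm (ge_of_tendsto' hlim fun N => theta_le hk hQ N) zero_le

end Pool.Agent.Q220.Bng
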