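import Pool.Agent.Q220.Bng.Model

/-!
Percolation of the bidirectional `k`-neighbour graph.
-/

set_option autoImplicit false

namespace Pool.Agent.Q220.Bng

open MeasureTheory ProbabilityTheory
open scoped ENNReal

variable {d m k : ℕ}

/-- number of open paths -/
noncomputable def NN (co : Fin 5 × Al m → Fin d) (c₀ : Fin d) (n : ℕ)
    (ω : Vx d → Finset (Dir d)) : ℝ :=
  ∑ a : Fin n → Al m, Set.indicator (Op co n 0 0 c₀ a) (fun _ => (1 : ℝ)) ω

/-- there is an open path of length `n` -/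
def Ev (co : Fin 5 × Al m → Fin d) (n : ℕ) (φ : Fin 5) (v : Vx d) (c : Fin d) :
    Set (Vx d → Finset (Dir d)) := ⋃ a : Fin n → Al m, Op co n φ v c a

theorem Ev_meas (co : Fin 5 × Al m → Fin d) (n : ℕ) (φ : Fin 5) (v : Vx d) (c : Fin d) :
    MeasurableSet (Ev co n φ v c) := MeasurableSet.iUnion fun _ => Op_meas _ _ _ _ _ _

theorem Ev_succ (co : Fin 5 × Al m → Fin d) (n : ℕ) : ∀ (φ : Fin 5) (v : Vx d) (c : Fin d),
    Ev co (n + 1) φ v c ⊆ Ev co n φ v c := by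
  induction n with
  | zero =>
    intro φ v c ω _
    exact Set.mem_iUnion.mpr ⟨Fin.elim0, trivial⟩
  | succ n ih =>
    intro φ v c ω hω
    obtain ⟨a, ha⟩ := Set.mem_iUnion.mp hω
    have h1 : ω ∈ Ev co (n + 1) (φ + 1) (v + ee co φ (a 0)) (co (φ, a 0)) :=
      Set.mem_iUnion.mpr ⟨Fin.tail a, ha.2⟩
    obtain ⟨a', ha'⟩ := Set.mem_iUnion.mp (ih _ _ _ h1)
    refine Set.mem_iUnion.mpr ⟨Fin.cons (a 0) a', ?_⟩
    refine ⟨?_, ?_⟩
    · rw [Fin.cons_zero]; exact ha.1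
    · rw [Fin.cons_zero, Fin.tail_cons]; exact ha'

theorem ee_vec (co : Fin 5 × Al m → Fin d) (φ : Fin 5) (b : Al m) :
    ee co φ b = vec (co (φ, b), true) := by
  simp [ee, vec]

/-- an open path leads to a far away vertex of the cluster -/
theorem reach (co : Fin 5 × Al m → Fin d) (n : ℕ) : ∀ (φ : Fin 5) (v : Vx d) (c : Fin d)
    (a : Fin (n + 1) → Al m) (ω : Vx d → Finset (Dir d)), ω ∈ Op co (n + 1) φ v c a →
      ∃ w, lev w = lev v + n ∧ (bng ω).Reachable v w := by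
  induction n with
  | zero =>
    intro φ v c a ω _
    exact ⟨v, by simp, SimpleGraph.Reachable.refl _⟩
  | succ n ih =>
    intro φ v c a ω hω
    obtain ⟨w, hw, hr⟩ := ih _ _ _ _ ω hω.2
    refine ⟨w, ?_, ?_⟩
    · rw [hw, lev_ee]
      push_cast
      ring
    · refine SimpleGraph.Reachable.trans (SimpleGraph.Adj.reachable ?_) hr
      have h1 : (co (φ, a 0), true) ∈ ω v := hω.1.2
      have h2 : (co (φ, a 0), false) ∈ ω (v + ee co φ (a 0)) := hω.2.1.1
      refine ⟨⟨_, h1, by rw [ee_vec]⟩, ⟨_, h2, ?_⟩⟩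
      ext i
      simp only [ee, vec, Pi.add_apply, Pi.single_apply, Bool.false_eq_true, if_false]
      split_ifs <;> ring

theorem NN_meas (co : Fin 5 × Al m → Fin d) (c₀ : Fin d) (n : ℕ) : Measurable (NN co c₀ n) := by
  unfold NN
  refine Finset.measurable_sum _ fun a _ => ?_
  exact measurable_const.indicator (Op_meas _ _ _ _ _ _)

theorem NN_abs (co : Fin 5 × Al m → Fin d) (c₀ : Fin d) (n : ℕ) (ω : Vx d → Finset (Dir d)) :
    |NN co c₀ n ω| ≤ (Fintype.card (Fin n → Al m) : ℝ) := by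
  unfold NN
  rw [abs_of_nonneg (Finset.sum_nonneg fun a _ => Set.indicator_nonneg (fun _ _ => zero_le_one) _)]
  calc ∑ a : Fin n → Al m, Set.indicator (Op co n 0 0 c₀ a) (fun _ => (1 : ℝ)) ω
      ≤ ∑ a : Fin n → Al m, (1 : ℝ) :=
        Finset.sum_le_sum fun a _ => Set.indicator_le_self' (fun _ _ => zero_le_one) _
    _ = _ := by simp

theorem NN_int (hk : k ≤ 2 * d) (hk2 : 2 ≤ k) (co : Fin 5 × Al m → Fin d) (c₀ : Fin d) (n : ℕ) :
    ∫ ω, NN co c₀ n ω ∂(PP d k hk) = (2 * m * qq d k) ^ n := by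
  unfold NN
  rw [integral_finsetSum _ fun a _ => (integrable_const (1 : ℝ)).indicator (Op_meas _ _ _ _ _ _)]
  have h1 : ∀ a : Fin n → Al m, ∫ ω, Set.indicator (Op co n 0 0 c₀ a) (fun _ => (1 : ℝ)) ω ∂(PP d k hk) =
      qq d k ^ n := by
    intro a
    rw [integral_indicator (Op_meas _ _ _ _ _ _)]
    simp only [integral_const, MeasurableSet.univ, measureReal_restrict_apply, Set.univ_inter,
      smul_eq_mul, mul_one]
    exact Op_prob hk hk2 co n _ _ _ _
  simp_rw [h1]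
  simp only [Finset.sum_const, Finset.card_univ, Fintype.card_fun, Fintype.card_prod,
    Fintype.card_fin, Fintype.card_bool, nsmul_eq_mul]
  push_cast
  rw [mul_pow, mul_pow]
  ring

theorem NN_sq (hk : k ≤ 2 * d) (hk2 : 2 ≤ k) (hm : 1 ≤ m) (co : Fin 5 × Al m → Fin d) (c₀ : Fin d)
    (n : ℕ) : ∫ ω, NN co c₀ n ω * NN co c₀ n ω ∂(PP d k hk) ≤
      ((2 * m * qq d k) ^ n) ^ 2 * uu co (qq d k)⁻¹ n 0 0 := by
  have e1 : ∀ ω, NN co c₀ n ω * NN co c₀ n ω = ∑ a : Fin n → Al m, ∑ a' : Fin n → Al m,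
      Set.indicator (Op co n 0 0 c₀ a ∩ Op co n 0 0 c₀ a') (fun _ => (1 : ℝ)) ω := by
    intro ω
    unfold NN
    rw [Finset.sum_mul_sum]
    refine Finset.sum_congr rfl fun a _ => Finset.sum_congr rfl fun a' _ => ?_
    rw [← Set.inter_indicator_mul]
    simp
  simp_rw [e1]
  rw [integral_finsetSum _ fun a _ => integrable_finsetSum _ fun a' _ =>
    (integrable_const (1 : ℝ)).indicator ((Op_meas _ _ _ _ _ _).inter (Op_meas _ _ _ _ _ _))]
  have h1 : ∀ a a' : Fin n → Al m, ∫ ω, Set.indicator (Op co n 0 0 c₀ a ∩ Op co n 0 0 c₀ a')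
      (fun _ => (1 : ℝ)) ω ∂(PP d k hk) ≤ (qq d k ^ 2) ^ n * UU co (qq d k)⁻¹ n 0 0 a a' := by
    intro a a'
    rw [integral_indicator ((Op_meas _ _ _ _ _ _).inter (Op_meas _ _ _ _ _ _))]
    simp only [integral_const, MeasurableSet.univ, measureReal_restrict_apply, Set.univ_inter,
      smul_eq_mul, mul_one]
    have := Op_two hk hk2 co n 0 0 0 c₀ c₀ a a' rfl
    rwa [sub_self] at this
  calc _ = ∑ a : Fin n → Al m, ∑ a' : Fin n → Al m, ∫ ω, Set.indicator
        (Op co n 0 0 c₀ a ∩ Op co n 0 0 c₀ a') (fun _ => (1 : ℝ)) ω ∂(PP d k hk) := by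
        refine Finset.sum_congr rfl fun a _ => ?_
        rw [integral_finsetSum _ fun a' _ =>
          (integrable_const (1 : ℝ)).indicator ((Op_meas _ _ _ _ _ _).inter (Op_meas _ _ _ _ _ _))]
    _ ≤ ∑ a : Fin n → Al m, ∑ a' : Fin n → Al m, (qq d k ^ 2) ^ n * UU co (qq d k)⁻¹ n 0 0 a a' :=
        Finset.sum_le_sum fun a _ => Finset.sum_le_sum fun a' _ => h1 a a'
    _ = (qq d k ^ 2) ^ n * (((2 * m : ℝ) ^ 2) ^ n * uu co (qq d k)⁻¹ n 0 0) := by
        rw [← UU_sum hm, Finset.mul_sum]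
        refine Finset.sum_congr rfl fun a _ => ?_
        rw [Finset.mul_sum]
    _ = _ := by
        rw [← mul_assoc, ← mul_pow, ← mul_pow, ← pow_mul, ← pow_mul, mul_comm 2 n,
          mul_comm (qq d k) (2 * (m : ℝ))]

/-- **Percolation criterion.** -/
theorem theta_pos_of (hk : k ≤ 2 * d) (hk2 : 2 ≤ k) (hm : 1 ≤ m) (hmd : 10 * m ≤ d)
    (h : ((qq d k)⁻¹ - 1) * ((∑ t ∈ Finset.range 5, (1 / (2 * m : ℝ)) ^ t +
      5 / 2 * (1 / (2 * m)) ^ 2) - 1) < 1) (hq1 : qq d k ≤ 1) : 0 < theta d k hk := by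
  have hq := qq_nonneg hk2 hk
  have hm' : (0 : ℝ) < m := by exact_mod_cast hm
  obtain ⟨co⟩ : Nonempty (Fin 5 × Al m ↪ Fin d) := by
    rw [Function.Embedding.nonempty_iff_card_le]
    simp only [Fintype.card_prod, Fintype.card_fin, Fintype.card_bool]
    omega
  obtain ⟨C, hC1, hC⟩ := uu_bdd hm co.injective (A := (qq d k)⁻¹) ((one_le_inv₀ hq).mpr hq1) h
  have hd : 0 < d := by omega
  set c₀ : Fin d := ⟨0, hd⟩
  have hC0 : 0 < C := by linarith
  -- probability of a long open path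
  have hprob : ∀ n, 1 / C ≤ (PP d k hk).real (Ev co n 0 0 c₀) := by
    intro n
    have h1 := NN_int hk hk2 (⇑co) c₀ n
    have h2 := NN_sq hk hk2 hm (⇑co) c₀ n
    have h3 : 0 < (2 * m * qq d k) ^ n := by positivity
    have h4 := Pool.Agent.H57R2.PU.second_moment (PP d k hk) (NN co c₀ n) (NN_meas _ _ _) _
      (NN_abs _ _ _) _ _ (1 - 1 / C) h1 rfl h3 (by
        have : 0 < 1 / C := by positivity
        linarith) (by
        have e : 1 - (1 - 1 / C) = 1 / C := by ring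
        rw [e]
        have h5 := hC n 0
        have h6 : (((2 * m * qq d k) ^ n) ^ 2 * uu co (qq d k)⁻¹ n 0 0) ≤
            ((2 * m * qq d k) ^ n) ^ 2 * C := mul_le_mul_of_nonneg_left h5 (by positivity)
        calc 1 / C * ∫ ω, NN co c₀ n ω * NN co c₀ n ω ∂(PP d k hk)
            ≤ 1 / C * (((2 * m * qq d k) ^ n) ^ 2 * C) :=
              mul_le_mul_of_nonneg_left (h2.trans h6) (by positivity)
          _ = ((2 * m * qq d k) ^ n) ^ 2 := by field_simp)
    have e : 1 - (1 - 1 / C) = 1 / C := by ring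
    rw [e] at h4
    refine h4.trans (measureReal_mono ?_)
    intro ω hω
    have hω' : NN co c₀ n ω ≠ 0 := hω
    unfold NN at hω'
    obtain ⟨a, _, ha⟩ := Finset.exists_ne_zero_of_sum_ne_zero hω'
    exact Set.mem_iUnion.mpr ⟨a, Set.mem_of_indicator_ne_zero ha⟩
  have hanti : Antitone fun n => Ev co n 0 0 c₀ := antitone_nat_of_succ_le fun n => Ev_succ _ _ _ _ _
  have hlim : ENNReal.ofReal (1 / C) ≤ PP d k hk (⋂ n, Ev co n 0 0 c₀) := by
    rw [hanti.measure_iInter (fun n => (Ev_meas _ _ _ _ _).nullMeasurableSet)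
      ⟨0, measure_ne_top _ _⟩]
    refine le_iInf fun n => ?_
    rw [← ENNReal.ofReal_toReal (measure_ne_top (PP d k hk) (Ev co n 0 0 c₀))]
    exact ENNReal.ofReal_le_ofReal (hprob n)
  refine lt_of_lt_of_le (ENNReal.ofReal_pos.mpr (by positivity)) (hlim.trans (measure_mono ?_))
  intro ω hω
  rw [Set.mem_iInter] at hω
  have h1 : ∀ n : ℕ, ∃ w, lev w = (n : ℤ) ∧ (bng ω).Reachable 0 w := by
    intro n
    obtain ⟨a, ha⟩ := Set.mem_iUnion.mp (hω (n + 1))
    obtain ⟨w, hw, hr⟩ := reach co n _ _ _ _ ω ha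
    refine ⟨w, ?_, hr⟩
    rw [hw]
    simp [lev]
  choose w hw hr using h1
  have hinj : Function.Injective w := by
    intro i j hij
    have := hw i
    rw [hij, hw j] at this
    exact_mod_cast this.symm
  refine (Set.infinite_range_of_injective hinj).mono ?_
  rintro _ ⟨n, rfl⟩
  rw [SimpleGraph.ConnectedComponent.mem_supp_iff, SimpleGraph.ConnectedComponent.eq]
  exact (hr n).symm

/-- the bidirectional graph percolates as soon as `k ^ 2 ≥ 40 d`, `d ≥ 30` -/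
theorem theta_pos (hd : 30 ≤ d) (hk : k ≤ 2 * d) (hkd : 40 * d ≤ k ^ 2) : 0 < theta d k hk := by
  have hk35 : 35 ≤ k := by nlinarith
  set m := d / 10 with hmdef
  have hm3 : 3 ≤ m := by omega
  have hmd : 10 * m ≤ d := by omega
  have hdm : d ≤ 10 * m + 9 := by omega
  have hkR : (35 : ℝ) ≤ k := by exact_mod_cast hk35
  have hk2R : (k : ℝ) ≤ 2 * d := by exact_mod_cast hk
  have hkdR : 40 * (d : ℝ) ≤ k ^ 2 := by exact_mod_cast hkd
  have hdR : (30 : ℝ) ≤ d := by exact_mod_cast hd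
  have hmR : (3 : ℝ) ≤ m := by exact_mod_cast hm3
  have hdmR : (d : ℝ) ≤ 10 * m + 9 := by exact_mod_cast hdm
  have hkk : (0 : ℝ) < k * (k - 1) := by nlinarith
  have hdd : (0 : ℝ) < 2 * d * (2 * d - 1) := by nlinarith
  have hq1 : qq d k ≤ 1 := by
    unfold qq
    rw [div_le_one hdd]
    nlinarith
  refine theta_pos_of (m := m) hk (by omega) (by omega) hmd ?_ hq1
  have hA : (qq d k)⁻¹ - 1 ≤ (20 * m - 2) / 19.4 := by
    unfold qq
    rw [inv_div, div_sub_one hkk.ne', div_le_div_iff₀ hkk (by norm_num)]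
    have h1 : 38.8 * (d : ℝ) ≤ k * (k - 1) := by nlinarith
    have h2 : (2 * (d : ℝ) * (2 * d - 1)) * 19.4 ≤ (k * (k - 1)) * (2 * d - 1) := by nlinarith
    nlinarith
  have hS : (∑ t ∈ Finset.range 5, (1 / (2 * m : ℝ)) ^ t + 5 / 2 * (1 / (2 * m)) ^ 2) - 1 ≤
      1 / (2 * m - 1) + 5 / (8 * m ^ 2) := by
    have h1 : (∑ t ∈ Finset.range 5, (1 / (2 * m : ℝ)) ^ t) - 1 ≤ 1 / (2 * m - 1) := by
      have hx : (0 : ℝ) < 2 * m := by positivity
      have h2m : (0 : ℝ) < 2 * m - 1 := by linarith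
      simp only [Finset.sum_range_succ, Finset.sum_range_zero]
      rw [le_div_iff₀ h2m]
      have : (1 / (2 * m : ℝ)) * (2 * m) = 1 := by field_simp
      set r : ℝ := 1 / (2 * m) with hr
      have hr0 : 0 < r := by positivity
      have e : (0 + r ^ 0 + r ^ 1 + r ^ 2 + r ^ 3 + r ^ 4 - 1) * (2 * m - 1) =
          (1 + r + r ^ 2 + r ^ 3) * (r * (2 * m)) - (r + r ^ 2 + r ^ 3 + r ^ 4) := by ring
      rw [e, this]
      nlinarith [pow_pos hr0 4]
    have h2 : 5 / 2 * (1 / (2 * m : ℝ)) ^ 2 = 5 / (8 * m ^ 2) := by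
      field_simp
      ring
    rw [h2]
    linarith
  have hA0 : 0 ≤ (qq d k)⁻¹ - 1 := by
    have hq := qq_nonneg (d := d) (k := k) (by omega) hk
    have := (one_le_inv₀ hq).mpr hq1
    linarith
  have h2m : (0 : ℝ) < 2 * m - 1 := by linarith
  have hfin : (20 * (m : ℝ) - 2) / 19.4 * (1 / (2 * m - 1) + 5 / (8 * m ^ 2)) < 1 := by
    rw [div_add_div _ _ h2m.ne' (by positivity), div_mul_div_comm, div_lt_one (by positivity)]
    nlinarith [mul_nonneg (mul_nonneg (by linarith : (0 : ℝ) ≤ m - 3) (by linarith : (0 : ℝ) ≤ m - 3)) (by linarith : (0 : ℝ) ≤ m)]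
  calc ((qq d k)⁻¹ - 1) * ((∑ t ∈ Finset.range 5, (1 / (2 * m : ℝ)) ^ t +
      5 / 2 * (1 / (2 * m)) ^ 2) - 1) ≤ ((qq d k)⁻¹ - 1) * (1 / (2 * m - 1) + 5 / (8 * m ^ 2)) :=
        mul_le_mul_of_nonneg_left hS hA0
    _ ≤ (20 * (m : ℝ) - 2) / 19.4 * (1 / (2 * m - 1) + 5 / (8 * m ^ 2)) :=
        mul_le_mul_of_nonneg_right hA (by positivity)
    _ < 1 := hfin

end Pool.Agent.Q220.Bng
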