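import Mathlib
import Pool.Agent.Q220.Dep.Dep
import Pool.Agent.Q220.Bng.Green
import Pool.Agent.H57R2.PU.Meas

/-!
The bidirectional `k`-neighbour graph on `ℤ^d` and the second moment of the number of open oriented
paths.
-/

set_option autoImplicit false

namespace Pool.Agent.Q220.Bng

open MeasureTheory ProbabilityTheory
open scoped ENNReal

/-- directions: `(i, true)` stands for `+ e_i` and `(i, false)` for `- e_i` -/
abbrev Dir (d : ℕ) : Type := Fin d × Bool

/-- vertices of the lattice -/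
abbrev Vx (d : ℕ) : Type := Fin d → ℤ

/-- the vector of a direction -/
def vec {d : ℕ} (a : Dir d) : Vx d := Pi.single a.1 (if a.2 then 1 else -1)

/-- finite sets of directions carry the discrete sigma-algebra -/
instance instMS (d : ℕ) : MeasurableSpace (Finset (Dir d)) := ⊤

instance (d : ℕ) : DiscreteMeasurableSpace (Finset (Dir d)) := ⟨fun _ => trivial⟩

theorem nonempty_k {d k : ℕ} (hk : k ≤ 2 * d) :
    (Finset.powersetCard k (Finset.univ : Finset (Dir d))).Nonempty := by
  rw [Finset.powersetCard_nonempty]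
  simp only [Finset.card_univ, Fintype.card_prod, Fintype.card_fin, Fintype.card_bool]
  omega

/-- the uniform law on the sets of `k` directions -/
noncomputable def law (d k : ℕ) (hk : k ≤ 2 * d) : Measure (Finset (Dir d)) :=
  (PMF.uniformOfFinset (Finset.powersetCard k (Finset.univ : Finset (Dir d)))
    (nonempty_k hk)).toMeasure

instance (d k : ℕ) (hk : k ≤ 2 * d) : IsProbabilityMeasure (law d k hk) := by
  unfold law
  infer_instance

/-- the vertices choose independently -/
noncomputable def PP (d k : ℕ) (hk : k ≤ 2 * d) : Measure (Vx d → Finset (Dir d)) :=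
  Measure.infinitePi fun _ => law d k hk

instance (d k : ℕ) (hk : k ≤ 2 * d) : IsProbabilityMeasure (PP d k hk) := by
  unfold PP
  infer_instance

/-- the set of neighbours chosen by `x` -/
def nbs {d : ℕ} (ω : Vx d → Finset (Dir d)) (x : Vx d) : Set (Vx d) :=
  {y | ∃ a ∈ ω x, y = x + vec a}

theorem vec_ne_zero {d : ℕ} (a : Dir d) : vec a ≠ 0 := by
  intro h
  have := congrFun h a.1
  rw [vec, Pi.single_eq_same] at this
  rcases a with ⟨i, t⟩
  cases t <;> simp at this

/-- the bidirectional graph: `x` and `y` are adjacent when each chooses the other -/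
def bng {d : ℕ} (ω : Vx d → Finset (Dir d)) : SimpleGraph (Vx d) where
  Adj x y := y ∈ nbs ω x ∧ x ∈ nbs ω y
  symm := ⟨fun _ _ h => ⟨h.2, h.1⟩⟩
  loopless := ⟨fun x h => by
    obtain ⟨a, _, ha⟩ := h.1
    exact vec_ne_zero a (by simpa using ha)⟩

/-- the percolation probability: the open cluster of the origin is infinite -/
noncomputable def theta (d k : ℕ) (hk : k ≤ 2 * d) : ℝ≥0∞ :=
  PP d k hk {ω | ((bng ω).connectedComponentMk 0).supp.Infinite}

/-- probability that two given directions are chosen -/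
noncomputable def qq (d k : ℕ) : ℝ := (k * (k - 1)) / (2 * d * (2 * d - 1))

theorem law_pair {d k : ℕ} (hk : k ≤ 2 * d) (hk2 : 2 ≤ k) {a b : Dir d} (hab : a ≠ b) :
    (law d k hk).real {S | a ∈ S ∧ b ∈ S} = qq d k := by
  have h1 : law d k hk {S | a ∈ S ∧ b ∈ S} =
      ((2 * d - 2).choose (k - 2) : ℝ≥0∞) / ((2 * d).choose k : ℝ≥0∞) := by
    unfold law
    rw [PMF.toMeasure_uniformOfFinset_apply _ _ MeasurableSet.of_discrete]
    rw [Finset.card_powersetCard]
    have h2 : (Finset.powersetCard k (Finset.univ : Finset (Dir d))).filter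
        (fun x => x ∈ {S : Finset (Dir d) | a ∈ S ∧ b ∈ S}) =
        (Finset.powersetCard k (Finset.univ : Finset (Dir d))).filter ({a, b} ⊆ ·) := by
      ext S
      simp [Finset.insert_subset_iff]
    have h3 : ({a, b} : Finset (Dir d)).card = 2 := Finset.card_pair hab
    have h4 := Finset.card_filter_powersetCard_subset ({a, b} : Finset (Dir d)) Finset.univ k
      (Finset.subset_univ _) (by rw [h3]; exact hk2)
    rw [h3] at h4
    have h5 : (Finset.univ : Finset (Dir d)).card = 2 * d := by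
      simp only [Finset.card_univ, Fintype.card_prod, Fintype.card_fin, Fintype.card_bool]
      ring
    rw [h5] at h4 ⊢
    congr 2
    rw [← h4]
    congr 1
    ext S
    simp [Finset.insert_subset_iff]
  rw [Measure.real, h1, ENNReal.toReal_div, ENNReal.toReal_natCast, ENNReal.toReal_natCast, qq]
  obtain ⟨K, rfl⟩ : ∃ K, k = K + 2 := ⟨k - 2, by omega⟩
  obtain ⟨N, hN⟩ : ∃ N, 2 * d = N + 2 := ⟨2 * d - 2, by omega⟩
  rw [hN]
  have h2 : ((N + 2).choose (K + 2) : ℝ) * ((K + 2) * (K + 1)) = (N.choose K : ℝ) * ((N + 2) * (N + 1)) := by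
    have e1 := Nat.add_one_mul_choose_eq (N + 1) (K + 1)
    have e2 := Nat.add_one_mul_choose_eq N K
    have e1' : ((N : ℝ) + 1 + 1) * ((N + 1).choose (K + 1) : ℝ) = ((N + 2).choose (K + 2) : ℝ) * ((K : ℝ) + 1 + 1) := by
      exact_mod_cast e1
    have e2' : ((N : ℝ) + 1) * (N.choose K : ℝ) = ((N + 1).choose (K + 1) : ℝ) * ((K : ℝ) + 1) := by
      exact_mod_cast e2
    linear_combination (-(N : ℝ) - 2) * e2' - (K + 1) * e1'
  have h3 : (2 * (d : ℝ)) = N + 2 := by exact_mod_cast hN
  have h4 : (0 : ℝ) < ((N + 2).choose (K + 2) : ℝ) := by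
    exact_mod_cast Nat.choose_pos (by omega)
  rw [h3]
  have h5 : N + 2 - 2 = N := by omega
  have h6 : K + 2 - 2 = K := by omega
  rw [h5, h6]
  push_cast
  have h7 : (N : ℝ) + 2 - 1 = N + 1 := by ring
  have h8 : (K : ℝ) + 2 - 1 = K + 1 := by ring
  rw [h7, h8]
  rw [div_eq_div_iff h4.ne' (by positivity)]
  linear_combination -h2

variable {d m k : ℕ}

/-- the vertex event: `v` chooses the direction `-e_c` and `+e_{c'}` -/
def VE (v : Vx d) (c c' : Fin d) : Set (Vx d → Finset (Dir d)) :=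
  {ω | (c, false) ∈ ω v ∧ (c', true) ∈ ω v}

/-- an oriented path is open -/
def Op (co : Fin 5 × Al m → Fin d) : (n : ℕ) → Fin 5 → Vx d → Fin d → (Fin n → Al m) →
    Set (Vx d → Finset (Dir d))
  | 0, _, _, _, _ => Set.univ
  | n + 1, φ, v, c, a => VE v c (co (φ, a 0)) ∩
      Op co n (φ + 1) (v + ee co φ (a 0)) (co (φ, a 0)) (Fin.tail a)

/-- level of a vertex -/
def lev (v : Vx d) : ℤ := ∑ i, v i

theorem lev_ee (co : Fin 5 × Al m → Fin d) (φ : Fin 5) (b : Al m) (v : Vx d) :
    lev (v + ee co φ b) = lev v + 1 := by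
  unfold lev ee
  simp [Finset.sum_add_distrib]

theorem VE_dep (v : Vx d) (c c' : Fin d) : DP.Dep {v} (VE v c c') := by
  intro ω ω' h hω
  have := h v rfl
  unfold VE at *
  simp only [Set.mem_ofPred_eq] at *
  rwa [this] at hω

theorem VE_dep_le {ℓ : ℤ} {v : Vx d} (h : lev v ≤ ℓ) (c c' : Fin d) :
    DP.Dep {w | lev w ≤ ℓ} (VE v c c') := by
  refine (VE_dep v _ _).mono ?_
  rintro w rfl
  exact h

theorem Op_dep (co : Fin 5 × Al m → Fin d) (n : ℕ) : ∀ (φ : Fin 5) (v : Vx d) (c : Fin d)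
    (a : Fin n → Al m) (ℓ : ℤ), ℓ ≤ lev v → DP.Dep {w | ℓ ≤ lev w} (Op co n φ v c a) := by
  induction n with
  | zero => intro φ v c a ℓ _; exact DP.Dep.univ _
  | succ n ih =>
    intro φ v c a ℓ hℓ
    refine DP.Dep.inter ((VE_dep v _ _).mono ?_) (ih _ _ _ _ ℓ ?_)
    · rintro w rfl
      exact hℓ
    · rw [lev_ee]; omega

theorem Op_meas (co : Fin 5 × Al m → Fin d) (n : ℕ) : ∀ (φ : Fin 5) (v : Vx d) (c : Fin d)
    (a : Fin n → Al m), MeasurableSet (Op co n φ v c a) := by
  induction n with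
  | zero => intro φ v c a; exact MeasurableSet.univ
  | succ n ih =>
    intro φ v c a
    exact ((VE_dep v _ _).measurable (Set.finite_singleton v)).inter (ih _ _ _ _)

theorem VE_prob (hk : k ≤ 2 * d) (hk2 : 2 ≤ k) (v : Vx d) (c c' : Fin d) :
    (PP d k hk).real (VE v c c') = qq d k := by
  rw [← law_pair hk hk2 (a := (c, false)) (b := (c', true)) (by simp)]
  unfold PP VE Measure.real
  have h1 : {ω : Vx d → Finset (Dir d) | (c, false) ∈ ω v ∧ (c', true) ∈ ω v} =
      (fun ω => ω v) ⁻¹' {S | (c, false) ∈ S ∧ (c', true) ∈ S} := rfl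
  rw [h1, (measurePreserving_eval_infinitePi (fun _ : Vx d => law d k hk) v).measure_preimage
    MeasurableSet.of_discrete.nullMeasurableSet]

theorem qq_nonneg (hk2 : 2 ≤ k) (hk : k ≤ 2 * d) : 0 < qq d k := by
  unfold qq
  have h1 : (2 : ℝ) ≤ k := by exact_mod_cast hk2
  have h2 : (k : ℝ) ≤ 2 * d := by exact_mod_cast hk
  have h3 : (0 : ℝ) < k * (k - 1) := by nlinarith
  have h4 : (0 : ℝ) < 2 * d * (2 * d - 1) := by nlinarith
  positivity

/-- two vertex events on the same level -/
theorem VE_two (hk : k ≤ 2 * d) (hk2 : 2 ≤ k) (v v' : Vx d) (c c' e e' : Fin d) :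
    (PP d k hk).real (VE v c c' ∩ VE v' e e') ≤
      qq d k ^ 2 * (if v - v' = 0 then (qq d k)⁻¹ else 1) := by
  have hq := qq_nonneg hk2 hk
  by_cases h : v - v' = 0
  · rw [if_pos h]
    have h1 : (PP d k hk).real (VE v c c' ∩ VE v' e e') ≤ qq d k := by
      rw [← VE_prob hk hk2 v c c']
      exact measureReal_mono Set.inter_subset_left
    calc _ ≤ qq d k := h1
      _ = _ := by field_simp
  · rw [if_neg h, mul_one]
    have hne : v ≠ v' := fun h' => h (by rw [h', sub_self])
    have h1 := DP.Dep.indep (fun _ : Vx d => law d k hk) (Set.finite_singleton v)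
      (Set.finite_singleton v') (by simpa using hne) (VE_dep v c c') (VE_dep v' e e')
    have h2 : (PP d k hk).real (VE v c c' ∩ VE v' e e') =
        (PP d k hk).real (VE v c c') * (PP d k hk).real (VE v' e e') := by
      unfold Measure.real PP
      rw [h1, ENNReal.toReal_mul]
    rw [h2, VE_prob hk hk2, VE_prob hk hk2]
    exact le_of_eq (by ring)

/-- independence of the first vertices and the rest -/
theorem split (hk : k ≤ 2 * d) {ℓ : ℤ} {E F : Set (Vx d → Finset (Dir d))}
    (hE : DP.Dep {w | lev w ≤ ℓ} E) (hF : DP.Dep {w | ℓ + 1 ≤ lev w} F) (mE : MeasurableSet E)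
    (mF : MeasurableSet F) :
    (PP d k hk).real (E ∩ F) = (PP d k hk).real E * (PP d k hk).real F := by
  have h1 := DP.Dep.indep_meas (fun _ : Vx d => law d k hk) (D1 := {w | lev w ≤ ℓ})
    (D2 := {w | ℓ + 1 ≤ lev w}) (by
      rw [Set.disjoint_left]
      intro w h1 h2
      have h1' : lev w ≤ ℓ := h1
      have h2' : ℓ + 1 ≤ lev w := h2
      omega) hE hF mE mF ⟨∅⟩
  unfold Measure.real PP
  rw [h1, ENNReal.toReal_mul]

theorem Op_prob (hk : k ≤ 2 * d) (hk2 : 2 ≤ k) (co : Fin 5 × Al m → Fin d) (n : ℕ) :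
    ∀ (φ : Fin 5) (v : Vx d) (c : Fin d) (a : Fin n → Al m),
      (PP d k hk).real (Op co n φ v c a) = qq d k ^ n := by
  induction n with
  | zero => intro φ v c a; simp [Op]
  | succ n ih =>
    intro φ v c a
    unfold Op
    rw [split hk (ℓ := lev v) (VE_dep_le (le_refl _) _ _)
      (Op_dep co n _ _ _ _ (lev v + 1) (by rw [lev_ee]))
      ((VE_dep v _ _).measurable (Set.finite_singleton v)) (Op_meas co n _ _ _ _),
      VE_prob hk hk2, ih]
    ring

/-- weight of a pair of paths -/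
noncomputable def UU (co : Fin 5 × Al m → Fin d) (A : ℝ) : (n : ℕ) → Fin 5 → Vx d →
    (Fin n → Al m) → (Fin n → Al m) → ℝ
  | 0, _, _, _, _ => 1
  | n + 1, φ, z, a, a' => (if z = 0 then A else 1) *
      UU co A n (φ + 1) (z + ee co φ (a 0) - ee co φ (a' 0)) (Fin.tail a) (Fin.tail a')

theorem Op_two (hk : k ≤ 2 * d) (hk2 : 2 ≤ k) (co : Fin 5 × Al m → Fin d) (n : ℕ) :
    ∀ (φ : Fin 5) (v v' : Vx d) (c c' : Fin d) (a a' : Fin n → Al m), lev v = lev v' →
      (PP d k hk).real (Op co n φ v c a ∩ Op co n φ v' c' a') ≤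
        (qq d k ^ 2) ^ n * UU co (qq d k)⁻¹ n φ (v - v') a a' := by
  have hq := qq_nonneg hk2 hk
  induction n with
  | zero => intro φ v v' c c' a a' _; simp [Op, UU]
  | succ n ih =>
    intro φ v v' c c' a a' hl
    have e1 : Op co (n + 1) φ v c a ∩ Op co (n + 1) φ v' c' a' =
        (VE v c (co (φ, a 0)) ∩ VE v' c' (co (φ, a' 0))) ∩
        (Op co n (φ + 1) (v + ee co φ (a 0)) (co (φ, a 0)) (Fin.tail a) ∩
          Op co n (φ + 1) (v' + ee co φ (a' 0)) (co (φ, a' 0)) (Fin.tail a')) := by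
      simp only [Op]
      exact Set.inter_inter_inter_comm _ _ _ _
    rw [e1, split hk (ℓ := lev v)
      ((VE_dep_le (le_refl _) _ _).inter (VE_dep_le hl.symm.le _ _))
      ((Op_dep co n _ _ _ _ (lev v + 1) (by rw [lev_ee])).inter
        (Op_dep co n _ _ _ _ (lev v + 1) (by rw [lev_ee, hl])))
      (((VE_dep v _ _).measurable (Set.finite_singleton v)).inter
        ((VE_dep v' _ _).measurable (Set.finite_singleton v')))
      ((Op_meas co n _ _ _ _).inter (Op_meas co n _ _ _ _))]
    have h1 := VE_two hk hk2 v v' c (co (φ, a 0)) c' (co (φ, a' 0))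
    have h2 := ih (φ + 1) (v + ee co φ (a 0)) (v' + ee co φ (a' 0)) (co (φ, a 0)) (co (φ, a' 0))
      (Fin.tail a) (Fin.tail a') (by rw [lev_ee, lev_ee, hl])
    have e2 : v + ee co φ (a 0) - (v' + ee co φ (a' 0)) = v - v' + ee co φ (a 0) - ee co φ (a' 0) := by
      abel
    rw [e2] at h2
    refine (mul_le_mul h1 h2 measureReal_nonneg ?_).trans (le_of_eq ?_)
    · have : (0 : ℝ) ≤ if v - v' = 0 then (qq d k)⁻¹ else 1 := by
        split_ifs
        · positivity
        · norm_num
      positivity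
    · simp only [UU]
      ring

theorem sum_cons {n : ℕ} (F : (Fin (n + 1) → Al m) → ℝ) :
    ∑ a, F a = ∑ b : Al m, ∑ a : Fin n → Al m, F (Fin.cons b a) := by
  rw [← (Fin.consEquiv (fun _ : Fin (n + 1) => Al m)).sum_comp, Fintype.sum_prod_type]
  rfl

theorem UU_sum (hm : 1 ≤ m) (co : Fin 5 × Al m → Fin d) (A : ℝ) (n : ℕ) :
    ∀ (φ : Fin 5) (z : Vx d), ∑ a, ∑ a', UU co A n φ z a a' = ((2 * m : ℝ) ^ 2) ^ n * uu co A n φ z := by
  have hm' : (0 : ℝ) < m := by exact_mod_cast hm
  induction n with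
  | zero => intro φ z; simp [UU, uu]
  | succ n ih =>
    intro φ z
    rw [sum_cons]
    have h1 : ∀ (b : Al m) (a : Fin n → Al m),
        ∑ a' : Fin (n + 1) → Al m, UU co A (n + 1) φ z (Fin.cons b a) a' =
        ∑ b' : Al m, ∑ a' : Fin n → Al m, (if z = 0 then A else 1) *
          UU co A n (φ + 1) (z + ee co φ b - ee co φ b') a a' := by
      intro b a
      rw [sum_cons]
      simp only [UU, Fin.cons_zero, Fin.tail_cons]
    simp_rw [h1]
    have h2 : ∀ b : Al m, ∑ a : Fin n → Al m, ∑ b' : Al m, ∑ a' : Fin n → Al m,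
        (if z = 0 then A else 1) * UU co A n (φ + 1) (z + ee co φ b - ee co φ b') a a' =
        ∑ b' : Al m, (if z = 0 then A else 1) * (((2 * m : ℝ) ^ 2) ^ n *
          uu co A n (φ + 1) (z + ee co φ b - ee co φ b')) := by
      intro b
      rw [Finset.sum_comm]
      refine Finset.sum_congr rfl fun b' _ => ?_
      rw [← ih, Finset.mul_sum]
      refine Finset.sum_congr rfl fun a _ => ?_
      rw [Finset.mul_sum]
    simp_rw [h2, ← Finset.mul_sum]
    simp only [uu]
    field_simp
    ring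

end Pool.Agent.Q220.Bng
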